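import Pool.Agent.H.MP_d44141_an.B

namespace Pool.Agent.Results.MP_d44141_an.NotPP
open Pool.Agent.H.MP_d44141_an MeasureTheory Polynomial Finset

theorem result : ∃ (ϑ : Fin 2 → Finset (List (Fin 2))) (M : Matrix (Fin 2) (Fin 2) ℚ),
    IsRandSub ϑ ∧ HasMatrix ϑ M ∧ IrrPisot M ∧ ∃ Y, MinSub (XS ϑ) Y ∧ ¬ PurePoint Y := by
  refine ⟨th, !![2, 3; 2, 2], fun a => ⟨⟨_, img_mem 0 a⟩, by revert a; decide⟩, ?_, ?_, ?_⟩
  · intro a b u hu
    fin_cases a <;> fin_cases b <;> simp [th, img] at hu <;> rcases hu with rfl | rfl <;>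
      simp
  · have e : (!![2, 3; 2, 2] : Matrix (Fin 2) (Fin 2) ℚ).charpoly = X ^ 2 - C 4 * X - C 2 := by
      rw [Matrix.charpoly_fin_two, Matrix.trace_fin_two_of, Matrix.det_fin_two_of, sub_eq_add_neg _ (C 2),
        ← C_neg]
      norm_num
    have s2 : √6 ^ 2 = 6 := Real.sq_sqrt (by norm_num)
    have s3 : 2 < √6 := Real.lt_sqrt_of_sq_lt (by norm_num)
    have s4 : √6 < 3 := (Real.sqrt_lt' (by norm_num)).2 (by norm_num)
    have r : aeval (2 + √6) (X ^ 2 - C 4 * X - C 2 : ℚ[X]) = 0 := by simp; nlinarith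
    have rt : ∀ z : ℂ, aeval z (X ^ 2 - C 4 * X - C 2 : ℚ[X]) = 0 →
        z = (2 + √6 : ℝ) ∨ z = (2 - √6 : ℝ) := by
      intro z hz
      have s5 : ((√6 : ℝ) : ℂ) ^ 2 = 6 := by exact_mod_cast s2
      simp at hz
      rw [← sub_eq_zero, ← sub_eq_zero (a := z), ← mul_eq_zero]
      push_cast
      linear_combination hz - s5
    rw [IrrPisot, e]
    refine ⟨⟨fun i j => ?_, 1, one_pos, fun i j => ?_⟩, ?_, 2 + √6, r, fun z hz => ?_,
      by linarith, ⟨X ^ 2 - C 4 * X - C 2, by monicity!, by simp; nlinarith⟩, fun z hz hz' => ?_⟩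
    · fin_cases i <;> fin_cases j <;> simp
    · fin_cases i <;> fin_cases j <;> simp
    · refine irreducible_of_degree_le_three_of_not_isRoot ?_ fun q hq => ?_
      · rw [show (X ^ 2 - C 4 * X - C 2 : ℚ[X]).natDegree = 2 by compute_degree!]; decide
      · have : IsSquare ((6 : ℕ) : ℚ) := ⟨q - 2, by simp at hq ⊢; linarith⟩
        rw [Rat.isSquare_natCast_iff] at this
        revert this; decide +kernel
    · rcases rt z hz with rfl | rfl <;> rw [Complex.norm_real, Real.norm_eq_abs, abs_le] <;>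
        constructor <;> linarith
    · obtain ⟨c, hc⟩ := minpoly.dvd ℚ _ r
      rcases rt z (by rw [hc, map_mul, hz, zero_mul]) with rfl | rfl
      · exact absurd rfl hz'
      · rw [Complex.norm_real, Real.norm_eq_abs, abs_lt]; constructor <;> linarith
  obtain ⟨Z, Z1, Z2, Z3, Z4, Z5⟩ := exZ
  have sub : ∀ Y : Set (ℤ → Fin 2), shift '' Y = Y ↔ ∀ z, z ∈ Y ↔ shift z ∈ Y := by
    intro Y
    have inj : Function.Injective (shift (A := Fin 2)) := fun a b h =>
      funext fun i => by simpa [shift] using congrFun h (i - 1)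
    constructor
    · intro h z
      rw [← inj.mem_set_image (s := Y), h]
    · intro h
      ext z
      refine ⟨fun ⟨w, h1, h2⟩ => h2 ▸ (h w).1 h1, fun hz => ?_⟩
      have e : shift (fun i => z (i - 1)) = z := by ext i; simp [shift]
      exact ⟨_, (h _).2 (e.symm ▸ hz), e⟩
  obtain ⟨Y, Y1, Y2⟩ := zorn_superset_nonempty {Y : Set (ℤ → Fin 2) | Subsys Y}
    (fun c hc ch ne => by
      haveI := ne.to_subtype
      refine ⟨⋂₀ c, ⟨IsCompact.nonempty_sInter_of_directed_nonempty_isCompact_isClosed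
        (fun a ha b hb => by
          rcases ch.total ha hb with h | h
          exacts [⟨a, ha, subset_rfl, h⟩, ⟨b, hb, h, subset_rfl⟩]) (fun U hU => (hc hU).1) (fun U hU => (hc hU).2.1.isCompact)
        fun U hU => (hc hU).2.1, isClosed_sInter fun U hU => (hc hU).2.1, (sub _).2 fun z => ?_⟩,
        fun s hs => Set.sInter_subset_of_mem hs⟩
      exact forall₂_congr fun U hU => (sub U).1 (hc hU).2.2 z) Z ⟨Z2, Z3, (sub Z).2 Z4⟩
  refine ⟨Y, ⟨Y1.trans Z1, Y2.1, fun W h1 h2 => h1.antisymm (Y2.2 h2 h1)⟩, fun H => ?_⟩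
  obtain ⟨⟨y, hy⟩, Y3, Y4⟩ := Y2.1
  haveI : CompactSpace Y := isCompact_iff_compactSpace.1 Y3.isCompact
  let T : Y → Y := fun y => ⟨shift y.1, ((sub Y).1 Y4 _).1 y.2⟩
  have cc : ∀ i, Continuous fun y : Y => y.1 i := fun i =>
    (continuous_apply i).comp continuous_subtype_val
  have cT : Continuous T := (continuous_pi fun i => cc (i + 1)).subtype_mk _
  obtain ⟨μ, hp, hμ⟩ := kb (⟨y, hy⟩ : Y) cT
  let φ : ℤ → C(Y, ℂ) := fun i => ⟨fun y => ((y.1 i : ℕ) : ℂ),
    (continuous_of_discreteTopology (f := fun a : Fin 2 => ((a : ℕ) : ℂ))).comp (cc i)⟩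
  let U := Lp.compMeasurePreservingₗᵢ (E := ℂ) (p := 2) ℂ T hμ
  let F : ℤ → Lp ℂ 2 μ := fun i => ContinuousMap.toLp 2 μ ℂ (φ i)
  have uF : ∀ i, U (F i) = F (i + 1) := fun i => by
    refine Lp.ext ((Lp.coeFn_compMeasurePreserving _ hμ).trans ?_)
    filter_upwards [hμ.quasiMeasurePreserving.ae_eq_comp (ContinuousMap.coeFn_toLp (p := 2)
      (𝕜 := ℂ) μ (φ i)), ContinuousMap.coeFn_toLp (p := 2) (𝕜 := ℂ) μ (φ (i + 1))] with w a b
    exact a.trans b.symm
  have iF : ∀ (n : ℕ) i, U^[n] (F i) = F (i + n) := fun n i => by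
    induction n with
    | zero => simp
    | succ n ih => rw [Function.iterate_succ_apply', ih, uF]; push_cast; rw [add_assoc]
  obtain ⟨k, hk, hd⟩ := rec_of_pp U (H T (fun _ => rfl) μ hμ) (F 0) 7 (show (0 : ℝ) < 1 / 8 by norm_num)
  obtain ⟨L, L0, hL⟩ := Z5 k hk
  have n1 : ∀ i : ℕ, ‖F (i + 7 * k) - F i‖ < 1 / 8 := fun i => by
    induction i with
    | zero => simpa [iF] using hd
    | succ i ih =>
      rw [← U.norm_map, map_sub, uF, uF] at ih
      push_cast
      rwa [add_right_comm]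
  have n2 : ∀ i : ℤ, ‖F (i + 7 * k) - F i‖ ^ 2 = ∫ w, (mm w.1 i (i + 7 * k) : ℝ) ∂μ := fun i => by
    rw [← inner_self_eq_norm_sq (𝕜 := ℂ), ← map_sub, ContinuousMap.inner_toLp, ← integral_re
      (Continuous.integrable_of_hasCompactSupport (by fun_prop) (.of_compactSpace _))]
    refine integral_congr_ae (.of_forall fun w => ?_)
    simp only [φ, mm, ContinuousMap.sub_apply, ContinuousMap.coe_mk]
    generalize w.1 i = a
    generalize w.1 (i + 7 * k) = b
    fin_cases a <;> fin_cases b <;> simp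
  have n3 : ∀ i : ℤ, Integrable (fun w : Y => (mm w.1 i (i + 7 * k) : ℝ)) μ := fun i =>
    Continuous.integrable_of_hasCompactSupport ((continuous_of_discreteTopology
      (f := fun q : Fin 2 × Fin 2 => ((if q.1 = q.2 then 0 else 1 : ℕ) : ℝ))).comp
        (f := fun w : Y => (w.1 i, w.1 (i + 7 * k))) ((cc _).prodMk (cc _))) (.of_compactSpace _)
  have n4 := integral_mono (integrable_const ((L : ℝ) / 4))
    (integrable_finsetSum (range (14 * L)) fun (i : ℕ) _ => n3 i) fun w => by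
      have : (L : ℝ) ≤ 4 * ∑ i ∈ range (14 * L), (mm w.1 (i : ℤ) (i + 7 * k) : ℝ) := by
        exact_mod_cast hL w.1 (Y1 w.2)
      linarith
  rw [integral_finsetSum _ fun (i : ℕ) _ => n3 i] at n4
  have n5 := sum_le_card_nsmul (range (14 * L))
    (fun i : ℕ => ∫ w, (mm w.1 (i : ℤ) (i + 7 * k) : ℝ) ∂μ) (1 / 64) fun i _ => by
      rw [← n2]; nlinarith [n1 i, norm_nonneg (F (i + 7 * k) - F i)]
  have : (0 : ℝ) < L := by exact_mod_cast L0
  simp at n4 n5
  linarith

end Pool.Agent.Results.MP_d44141_an.NotPP
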